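import Mathlib
import Pool.Agent.H90.SatD

namespace Pool.Agent.Results.MP_1eccf6_an.NotSat

open Pool.Agent.H90.Sat

theorem result : ∃ (H : Type) (_ : NormedAddCommGroup H) (_ : InnerProductSpace ℂ H)
    (_ : CompleteSpace H), TopologicalSpace.SeparableSpace H ∧ ¬ FiniteDimensional ℂ H ∧
    ∃ (I : Set (H →L[ℂ] H)) (nm : (H →L[ℂ] H) → ℝ) (n : ℕ) (τ : Fin n → H →L[ℂ] H),
      IsIdl I ∧ IsSymNorm I nm ∧ IsCompl I nm ∧ FinDense I nm ∧
      (∀ j, star (τ j) = τ j) ∧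
      0 < kk nm τ ∧ kk nm τ < ⊤ ∧ ¬ Saturated (EE I τ) :=
  ⟨HS, inferInstance, inferInstance, inferInstance, sep_HS, inf_HS, II, nm, 4, τ, isIdl, isSym,
    isCompl, finDense, fun j => (sa_τ j).star_eq, kk_pos, kk_lt, not_sat⟩

end Pool.Agent.Results.MP_1eccf6_an.NotSat
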